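import Pool.Agent.W412.TI.Main

set_option autoImplicit false

/-!
Extension of maps into the closure of the transitive maps.
-/

namespace Pool.Agent.W412.TI

open Set

universe u

theorem ext_C (X : Type u) [TopologicalSpace X] [TopologicalSpace.MetrizableSpace X] (A : Set X)
    (hA : IsClosed A) (φ : C(A, C(unitInterval, unitInterval))) :
    ∃ Φ : C(X, C(unitInterval, unitInterval)), ∀ a : A, Φ a = φ a := by
  let e : A × unitInterval → X × unitInterval := Prod.map Subtype.val id
  have he : Topology.IsClosedEmbedding e :=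
    hA.isClosedEmbedding_subtypeVal.prodMap Topology.IsClosedEmbedding.id
  let f : C(A × unitInterval, unitInterval) := ContinuousMap.uncurry φ
  let f' : C(A × unitInterval, ℝ) := ⟨fun q => (f q : ℝ), by fun_prop⟩
  letI := TopologicalSpace.metrizableSpaceMetric X
  obtain ⟨G, hG, hGe⟩ := ContinuousMap.exists_extension_forall_mem_of_isClosedEmbedding f'
    (t := Set.Icc (0:ℝ) 1) (fun q => (f q).2) ⟨0, by simp⟩ he
  let G' : C(X × unitInterval, unitInterval) := ⟨fun q => ⟨G q, hG q⟩, by fun_prop⟩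
  refine ⟨ContinuousMap.curry G', ?_⟩
  intro a
  ext x
  have h := congrFun hGe (a, x)
  exact h

theorem absExt (h1 : S_FOLD) (h2 : S_AVG) (h3 : S_G) (h4 : S_CT) (X : Type u)
    [TopologicalSpace X] [TopologicalSpace.MetrizableSpace X] (A : Set X) (hA : IsClosed A)
    (φ : C(A, C(unitInterval, unitInterval))) (hφ : ∀ a, φ a ∈ closure T) :
    ∃ Φ : C(X, C(unitInterval, unitInterval)), (∀ a : A, Φ a = φ a) ∧ ∀ x ∉ A, Φ x ∈ T := by
  obtain ⟨ρ, hρ, hρ0, hρ1⟩ := retract h1 h2 h3 h4
  rcases A.eq_empty_or_nonempty with hAe | hAne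
  · obtain ⟨f, hf⟩ := T_nonempty h1 h2 h3
    refine ⟨ContinuousMap.const X f, ?_, fun x _ => hf⟩
    rintro ⟨a, ha⟩
    rw [hAe] at ha
    exact absurd ha (Set.notMem_empty a)
  · obtain ⟨Φ₀, hΦ₀⟩ := ext_C X A hA φ
    letI := TopologicalSpace.metrizableSpaceMetric X
    have hs : ∀ x : X, min 1 (Metric.infDist x A) ∈ Set.Icc (0:ℝ) 1 := fun x =>
      ⟨le_min zero_le_one Metric.infDist_nonneg, min_le_left _ _⟩
    let s : X → unitInterval := fun x => ⟨min 1 (Metric.infDist x A), hs x⟩
    have hscont : Continuous s :=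
      Continuous.subtype_mk (continuous_const.min (Metric.continuous_infDist_pt A)) hs
    refine ⟨⟨fun x => ρ (Φ₀ x, s x), hρ.comp (Φ₀.continuous.prodMk hscont)⟩, ?_, ?_⟩
    · intro a
      show ρ (Φ₀ a, s a) = φ a
      have h0 : s a = 0 := by
        apply Subtype.ext
        show min 1 (Metric.infDist (a : X) A) = 0
        rw [Metric.infDist_zero_of_mem a.2]
        simp
      rw [h0, hΦ₀ a]
      exact hρ0 _ (hφ a)
    · intro x hx
      show ρ (Φ₀ x, s x) ∈ T
      apply hρ1
      right
      show (0:ℝ) < min 1 (Metric.infDist x A)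
      exact lt_min one_pos ((hA.notMem_iff_infDist_pos hAne).mp hx)

end Pool.Agent.W412.TI
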