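import Mathlib

set_option autoImplicit false

/-!
Spaces of transitive interval maps: the definitions.
-/

namespace Pool.Agent.W412.TI

open Set

noncomputable section

/-- The transitive maps. -/
def T : Set C(unitInterval, unitInterval) :=
  {f | ∀ U V : Set unitInterval, IsOpen U → IsOpen V → U.Nonempty → V.Nonempty →
    ∃ n : ℕ, 0 < n ∧ ((⇑f)^[n] '' U ∩ V).Nonempty}

/-- One step of an `ε`-chain. -/
def Step (f : C(unitInterval, unitInterval)) (ε : ℝ) (x y : unitInterval) : Prop :=
  |(y : ℝ) - f x| < ε

/-- The chain transitive maps. -/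
def CT : Set C(unitInterval, unitInterval) :=
  {f | ∀ ε : ℝ, 0 < ε → ∀ x y : unitInterval, Relation.TransGen (Step f ε) x y}

/-- The distance to the even integers. -/
def fold (v : ℝ) : ℝ := Metric.infDist v (Set.range fun k : ℤ => 2 * (k : ℝ))

theorem continuous_fold : Continuous fold := Metric.continuous_infDist_pt _

/-- The mean of `F` over `[x, x + t]`. -/
def avg (F : C(unitInterval, unitInterval)) (t x : ℝ) : ℝ :=
  ∫ s in (0:ℝ)..1, ((F (Set.projIcc 0 1 zero_le_one (x + t * s)) : unitInterval) : ℝ)

theorem continuous_avg :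
    Continuous fun q : C(unitInterval, unitInterval) × ℝ × ℝ => avg q.1 q.2.1 q.2.2 := by
  unfold avg
  apply intervalIntegral.continuous_parametric_intervalIntegral_of_continuous'
  have h1 : Continuous fun q : (C(unitInterval, unitInterval) × ℝ × ℝ) × ℝ =>
      Set.projIcc (0:ℝ) 1 zero_le_one (q.1.2.2 + q.1.2.1 * q.2) := by
    exact continuous_projIcc.comp (by fun_prop)
  have h2 : Continuous fun q : (C(unitInterval, unitInterval) × ℝ × ℝ) × ℝ =>
      q.1.1 (Set.projIcc (0:ℝ) 1 zero_le_one (q.1.2.2 + q.1.2.1 * q.2)) := by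
    fun_prop
  exact continuous_subtype_val.comp h2

/-- The mean as a continuous function. -/
def avgC (F : C(unitInterval, unitInterval)) (t : ℝ) : C(unitInterval, ℝ) :=
  ⟨fun x => avg F t x, continuous_avg.comp (by fun_prop :
    Continuous fun x : unitInterval => (F, t, (x : ℝ)))⟩

/-- `F` as a real function. -/
def coeC (F : C(unitInterval, unitInterval)) : C(unitInterval, ℝ) :=
  ⟨fun x => (F x : ℝ), by fun_prop⟩

/-- The distance between `F` and its mean. -/
def err (F : C(unitInterval, unitInterval)) (t : ℝ) : ℝ := dist (avgC F t) (coeC F)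

/-- The amplitude. -/
def amp (F : C(unitInterval, unitInterval)) (t : ℝ) : ℝ := 5 * |t| + err F t

/-- The lower function. -/
def lo (F : C(unitInterval, unitInterval)) (t x : ℝ) : ℝ := max 0 (avg F t x - amp F t)

/-- The upper function. -/
def hi (F : C(unitInterval, unitInterval)) (t x : ℝ) : ℝ := min 1 (avg F t x + amp F t)

/-- The saw. -/
def saw (c t x : ℝ) : ℝ := fold (c * x / t ^ 2)

/-- The value of the modified map. -/
def gR (c : ℝ) (F : C(unitInterval, unitInterval)) (t x : ℝ) : ℝ :=
  (1 - saw c t x) * lo F t x + saw c t x * hi F t x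

end

end Pool.Agent.W412.TI
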