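import Pool.Agent.W412.TI.Master3

set_option autoImplicit false

/-!
The main results from the steps.
-/

namespace Pool.Agent.W412.TI

open Set

theorem g_mem (h1 : S_FOLD) (h2 : S_AVG)
    (g : ℝ → C(unitInterval, unitInterval) × ℝ → C(unitInterval, unitInterval)) (hg : IsG g)
    (c : ℝ) (hc : 16 ≤ c) (F : C(unitInterval, unitInterval)) (t : ℝ) (ht : 0 < t) (ht1 : t ≤ 1)
    (hch : ∀ x y, Relation.TransGen (Step F (4 * t)) x y) : g c (F, t) ∈ T :=
  master h1 h2 c F t hc ht ht1 hch _ fun x => hg.1 c (F, t) x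

theorem ct_subset (h1 : S_FOLD) (h2 : S_AVG) (h3 : S_G) : CT ⊆ closure T := by
  obtain ⟨g, hg⟩ := h3
  intro f hf
  rw [Metric.mem_closure_iff]
  intro δ hδ
  have hcont : Continuous fun t : ℝ => g 16 (f, t) :=
    (hg.2.1 16).comp (by fun_prop : Continuous fun t : ℝ => (f, t))
  have h0 : (fun t : ℝ => g 16 (f, t)) 0 = f := hg.2.2.1 16 f
  obtain ⟨r, hr, hball⟩ := Metric.continuousAt_iff.mp (hcont.continuousAt (x := 0)) δ hδ
  obtain ⟨t, ht⟩ : ∃ t : ℝ, t = min (r / 2) 1 := ⟨_, rfl⟩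
  have ht0 : 0 < t := by rw [ht]; exact lt_min (by linarith) one_pos
  have ht1 : t ≤ 1 := by rw [ht]; exact min_le_right _ _
  have htr : t < r := by
    have : t ≤ r / 2 := by rw [ht]; exact min_le_left _ _
    linarith
  refine ⟨g 16 (f, t), g_mem h1 h2 g hg 16 le_rfl f t ht0 ht1 (hf (4 * t) (by linarith)), ?_⟩
  have := hball (x := t) (by rw [Real.dist_eq, sub_zero, abs_of_pos ht0]; exact htr)
  rw [hg.2.2.1 16 f] at this
  rw [dist_comm]
  exact this

theorem T_nonempty (h1 : S_FOLD) (h2 : S_AVG) (h3 : S_G) : T.Nonempty := by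
  obtain ⟨g, hg⟩ := h3
  refine ⟨g 16 (ContinuousMap.id _, 1), g_mem h1 h2 g hg 16 le_rfl _ 1 one_pos le_rfl ?_⟩
  intro x y
  apply Relation.TransGen.single
  unfold Step
  have := x.2.1
  have := x.2.2
  have := y.2.1
  have := y.2.2
  have h : ((ContinuousMap.id unitInterval x : unitInterval) : ℝ) = x := rfl
  rw [h, abs_lt]
  constructor <;> linarith

theorem dist_le_one (F f : C(unitInterval, unitInterval)) : dist F f ≤ 1 := by
  rw [ContinuousMap.dist_le zero_le_one]
  intro x
  rw [Subtype.dist_eq, Real.dist_eq, abs_le]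
  have := (F x).2.1
  have := (F x).2.2
  have := (f x).2.1
  have := (f x).2.2
  constructor <;> linarith

theorem chain_of_near (h4 : S_CT) (hne : T.Nonempty) (F : C(unitInterval, unitInterval)) (t : ℝ)
    (ht : 0 < t) (hF : Metric.infDist F T ≤ t) :
    ∀ x y, Relation.TransGen (Step F (4 * t)) x y := by
  intro x y
  obtain ⟨f, hfT, hf⟩ := (Metric.infDist_lt_iff hne).mp (by linarith : Metric.infDist F T < 2 * t)
  have hct := h4 (subset_closure hfT) t ht x y
  refine Relation.TransGen.mono ?_ x y hct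
  intro a b hab
  unfold Step at hab ⊢
  have hd : dist (F a) (f a) ≤ dist F f := ContinuousMap.dist_apply_le_dist a
  rw [Subtype.dist_eq, Real.dist_eq, abs_sub_comm] at hd
  have e : (b : ℝ) - F a = (b - f a) + ((f a : ℝ) - F a) := by ring
  rw [e]
  exact (abs_add_le _ _).trans_lt (by linarith)

theorem closure_eq (h1 : S_FOLD) (h2 : S_AVG) (h3 : S_G) (h4 : S_CT) : closure T = CT :=
  Subset.antisymm h4 (ct_subset h1 h2 h3)

theorem retract (h1 : S_FOLD) (h2 : S_AVG) (h3 : S_G) (h4 : S_CT) :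
    ∃ ρ : C(unitInterval, unitInterval) × unitInterval → C(unitInterval, unitInterval),
      Continuous ρ ∧ (∀ f ∈ closure T, ρ (f, 0) = f) ∧
      ∀ f s, (f ∉ closure T ∨ 0 < s) → ρ (f, s) ∈ T := by
  have hne := T_nonempty h1 h2 h3
  obtain ⟨g, hg⟩ := h3
  have hle : ∀ F, Metric.infDist F T ≤ 1 := by
    intro F
    obtain ⟨f, hf⟩ := hne
    exact (Metric.infDist_le_dist_of_mem hf).trans (dist_le_one F f)
  refine ⟨fun q => g 16 (q.1, min 1 (max (Metric.infDist q.1 T) q.2)), ?_, ?_, ?_⟩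
  · apply (hg.2.1 16).comp
    have hc : Continuous fun q : C(unitInterval, unitInterval) × unitInterval =>
        Metric.infDist q.1 T := (Metric.continuous_infDist_pt T).comp continuous_fst
    have hc2 : Continuous fun q : C(unitInterval, unitInterval) × unitInterval =>
        (q.2 : ℝ) := continuous_subtype_val.comp continuous_snd
    exact continuous_fst.prodMk (continuous_const.min (hc.max hc2))
  · intro f hf
    have h0 : Metric.infDist f T = 0 := Metric.infDist_zero_of_mem_closure hf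
    show g 16 (f, min 1 (max (Metric.infDist f T) ((0 : unitInterval) : ℝ))) = f
    rw [h0]
    have : min (1:ℝ) (max 0 ((0 : unitInterval) : ℝ)) = 0 := by simp
    rw [this]
    exact hg.2.2.1 16 f
  · intro f s hfs
    have hpos : 0 < min 1 (max (Metric.infDist f T) (s : ℝ)) := by
      refine lt_min one_pos ?_
      rcases hfs with hf | hs
      · exact lt_max_of_lt_left ((Metric.infDist_pos_iff_notMem_closure hne).mp hf)
      · exact lt_max_of_lt_right hs
    refine g_mem h1 h2 g hg 16 le_rfl f _ hpos (min_le_left _ _) ?_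
    apply chain_of_near h4 hne f _ hpos
    exact le_min (hle f) (le_max_left _ _)

theorem discrete (h1 : S_FOLD) (h2 : S_AVG) (h3 : S_G) (h4 : S_CT) (h5 : S_LF) :
    ∀ ε : C(unitInterval, unitInterval) → ℝ, Continuous ε → (∀ f, 0 < ε f) →
      ∃ Ψ : ℕ → C(unitInterval, unitInterval) → C(unitInterval, unitInterval),
        (∀ n, Continuous (Ψ n)) ∧ (∀ n f, dist (Ψ n f) f < ε f) ∧
        (∀ n, ∀ f ∈ closure T, Ψ n f ∈ T) ∧ LocallyFinite fun n : ℕ => range (Ψ n) := by
  intro ε hε hpos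
  obtain ⟨g, hg⟩ := h3
  obtain ⟨τ, hτ, hτ1, hτ2, hLF⟩ := h5 g hg ε hε hpos
  refine ⟨fun n f => g (16 + n) (f, τ f), ?_, ?_, ?_, hLF⟩
  · intro n
    exact (hg.2.1 _).comp (continuous_id.prodMk hτ)
  · intro n f
    exact (hg.2.2.2 _ f _).trans_lt (hτ2 f)
  · intro n f hf
    refine g_mem h1 h2 g hg _ ?_ f _ (hτ1 f).1 (hτ1 f).2 ?_
    · have : (0:ℝ) ≤ n := Nat.cast_nonneg n
      linarith
    · exact h4 hf _ (by linarith [(hτ1 f).1])

end Pool.Agent.W412.TI
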