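import Pool.Agent.W412.TI.Spec

set_option autoImplicit false

/-!
The modified maps are transitive.
-/

namespace Pool.Agent.W412.TI

open Set

theorem half (x y : ℝ) (h : x < y) : (∃ k : ℤ, x ≤ k ∧ (k : ℝ) + 1 ≤ y) ∨
    ∃ (k : ℤ) (x' y' : ℝ), x ≤ x' ∧ x' ≤ y' ∧ y' ≤ y ∧ (k : ℝ) ≤ x' ∧ y' ≤ k + 1 ∧
      (y - x) / 2 ≤ y' - x' := by
  obtain ⟨k, hk⟩ : ∃ k : ℤ, k = ⌊x⌋ := ⟨_, rfl⟩
  have h1 : (k : ℝ) ≤ x := by rw [hk]; exact Int.floor_le x
  have h2 : x < k + 1 := by rw [hk]; exact Int.lt_floor_add_one x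
  by_cases h3 : y ≤ k + 1
  · right
    exact ⟨k, x, y, le_rfl, h.le, le_rfl, h1, h3, by linarith⟩
  push Not at h3
  by_cases h4 : (k : ℝ) + 2 ≤ y
  · left
    refine ⟨k + 1, ?_, ?_⟩ <;> push_cast <;> linarith
  push Not at h4
  right
  by_cases h5 : (y - x) / 2 ≤ k + 1 - x
  · exact ⟨k, x, k + 1, le_rfl, h2.le, h3.le, h1, le_rfl, h5⟩
  · push Not at h5
    refine ⟨k + 1, k + 1, y, h2.le, h3.le, le_rfl, ?_, ?_, ?_⟩ <;> push_cast <;> linarith

theorem err_nonneg (F : C(unitInterval, unitInterval)) (t : ℝ) : 0 ≤ err F t := dist_nonneg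

theorem gap (h2 : S_AVG) (F : C(unitInterval, unitInterval)) (t x : ℝ) (ht : 0 < t) (ht1 : t ≤ 1) :
    t ≤ hi F t x - lo F t x := by
  obtain ⟨ha0, ha1⟩ := h2.1 F t x
  have he := err_nonneg F t
  have hamp : 5 * t ≤ amp F t := by
    unfold amp; rw [abs_of_pos ht]; linarith
  unfold hi lo
  rcases le_total 1 (avg F t x + amp F t) with h | h
  · rw [min_eq_left h]
    rcases le_total 0 (avg F t x - amp F t) with h' | h'
    · rw [max_eq_right h']; linarith
    · rw [max_eq_left h']; linarith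
  · rw [min_eq_right h]
    rcases le_total 0 (avg F t x - amp F t) with h' | h'
    · rw [max_eq_right h']; linarith
    · rw [max_eq_left h']; linarith

theorem lo_lip (h2 : S_AVG) (F : C(unitInterval, unitInterval)) (t x y : ℝ) (ht : 0 < t) :
    |lo F t x - lo F t y| ≤ |x - y| / t := by
  have h := h2.2.1 F t x y ht
  unfold lo
  have h3 := abs_max_sub_max_le_abs (avg F t x - amp F t) (avg F t y - amp F t) 0
  rw [max_comm 0, max_comm 0]
  have h4 : avg F t x - amp F t - (avg F t y - amp F t) = avg F t x - avg F t y := by ring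
  rw [h4] at h3
  exact h3.trans h

theorem hi_lip (h2 : S_AVG) (F : C(unitInterval, unitInterval)) (t x y : ℝ) (ht : 0 < t) :
    |hi F t x - hi F t y| ≤ |x - y| / t := by
  have h := h2.2.1 F t x y ht
  unfold hi
  have h3 := abs_min_sub_min_le_max 1 (avg F t x + amp F t) 1 (avg F t y + amp F t)
  have h4 : avg F t x + amp F t - (avg F t y + amp F t) = avg F t x - avg F t y := by ring
  rw [h4, sub_self, abs_zero, max_eq_right (abs_nonneg _)] at h3
  exact h3.trans h

theorem saw_diff (h1 : S_FOLD) (c t x y : ℝ) (k : ℤ) (hx : (k : ℝ) ≤ c * x / t ^ 2)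
    (hx' : c * x / t ^ 2 ≤ k + 1) (hy : (k : ℝ) ≤ c * y / t ^ 2) (hy' : c * y / t ^ 2 ≤ k + 1) :
    |saw c t y - saw c t x| = |c * y / t ^ 2 - c * x / t ^ 2| := by
  unfold saw
  rcases Int.even_or_odd' k with ⟨m, hm | hm⟩
  · have e : (k : ℝ) = 2 * m := by rw [hm]; push_cast; ring
    rw [e] at hx hx' hy hy'
    rw [h1.2.2.1 m _ hx hx', h1.2.2.1 m _ hy hy']
    congr 1; ring
  · have e : (k : ℝ) = 2 * ((m + 1 : ℤ) : ℝ) - 1 := by rw [hm]; push_cast; ring
    rw [e] at hx hx' hy hy'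
    rw [h1.2.2.2 (m + 1) _ hx (by linarith), h1.2.2.2 (m + 1) _ hy (by linarith), abs_sub_comm]
    congr 1; ring

theorem steep (h1 : S_FOLD) (h2 : S_AVG) (c : ℝ) (F : C(unitInterval, unitInterval)) (t : ℝ)
    (hc : 16 ≤ c) (ht : 0 < t) (ht1 : t ≤ 1) (x y : ℝ) (hxy : x ≤ y) (k : ℤ)
    (hx : (k : ℝ) ≤ c * x / t ^ 2) (hy' : c * y / t ^ 2 ≤ k + 1) :
    4 * (y - x) ≤ |gR c F t y - gR c F t x| := by
  have ht2 : 0 < t ^ 2 := by positivity
  have hmono : c * x / t ^ 2 ≤ c * y / t ^ 2 := by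
    apply div_le_div_of_nonneg_right _ ht2.le
    exact mul_le_mul_of_nonneg_left hxy (by linarith)
  have hs := saw_diff h1 c t x y k hx (hmono.trans hy') (hx.trans hmono) hy'
  have hg := gap h2 F t y ht ht1
  have hl := lo_lip h2 F t y x ht
  have hh := hi_lip h2 F t y x ht
  have hw0 : 0 ≤ saw c t x := h1.1 _
  have hw1 : saw c t x ≤ 1 := h1.2.1 _
  have hd : 0 ≤ y - x := by linarith
  rw [abs_of_nonneg hd] at hl hh
  have hdec : gR c F t y - gR c F t x = (saw c t y - saw c t x) * (hi F t y - lo F t y) +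
      ((1 - saw c t x) * (lo F t y - lo F t x) + saw c t x * (hi F t y - hi F t x)) := by
    unfold gR; ring
  have hsmall : |(1 - saw c t x) * (lo F t y - lo F t x) + saw c t x * (hi F t y - hi F t x)| ≤
      (y - x) / t := by
    refine (abs_add_le _ _).trans ?_
    rw [abs_mul, abs_mul, abs_of_nonneg hw0, abs_of_nonneg (by linarith : 0 ≤ 1 - saw c t x)]
    have e1 := mul_le_mul_of_nonneg_left hl (by linarith : 0 ≤ 1 - saw c t x)
    have e2 := mul_le_mul_of_nonneg_left hh hw0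
    have e3 : (1 - saw c t x) * ((y - x) / t) + saw c t x * ((y - x) / t) = (y - x) / t := by ring
    linarith
  have hbig : 16 * ((y - x) / t) ≤ |(saw c t y - saw c t x) * (hi F t y - lo F t y)| := by
    rw [abs_mul, hs, abs_of_nonneg (by linarith : 0 ≤ hi F t y - lo F t y),
      abs_of_nonneg (by linarith : 0 ≤ c * y / t ^ 2 - c * x / t ^ 2)]
    have e1 : c * y / t ^ 2 - c * x / t ^ 2 = c * ((y - x) / t ^ 2) := by ring
    have e2 : 0 ≤ (y - x) / t ^ 2 := by positivity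
    have e3 : (y - x) / t = (y - x) / t ^ 2 * t := by field_simp
    rw [e1, e3]
    have e4 : 16 * ((y - x) / t ^ 2) ≤ c * ((y - x) / t ^ 2) :=
      mul_le_mul_of_nonneg_right hc e2
    have e5 : 0 ≤ c * ((y - x) / t ^ 2) := by positivity
    calc 16 * ((y - x) / t ^ 2 * t) = 16 * ((y - x) / t ^ 2) * t := by ring
      _ ≤ c * ((y - x) / t ^ 2) * t := mul_le_mul_of_nonneg_right e4 ht.le
      _ ≤ c * ((y - x) / t ^ 2) * (hi F t y - lo F t y) := mul_le_mul_of_nonneg_left hg e5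
  have htri : |(saw c t y - saw c t x) * (hi F t y - lo F t y)| ≤
      |gR c F t y - gR c F t x| + (y - x) / t := by
    have e : (saw c t y - saw c t x) * (hi F t y - lo F t y) = (gR c F t y - gR c F t x) -
      ((1 - saw c t x) * (lo F t y - lo F t x) + saw c t x * (hi F t y - hi F t x)) := by
      rw [hdec]; ring
    rw [e]
    exact (abs_sub _ _).trans (by linarith)
  have hq : y - x ≤ (y - x) / t := by
    rw [le_div_iff₀ ht]
    nlinarith
  linarith

end Pool.Agent.W412.TI
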