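import Pool.Agent.W412.TI.Master

set_option autoImplicit false

/-!
The modified maps are transitive, second part.
-/

namespace Pool.Agent.W412.TI

open Set

/-- A piece. -/
def piece (L : ℝ) (k : ℤ) : Set unitInterval := {z | (k : ℝ) ≤ L * z ∧ L * z ≤ k + 1}

/-- A full piece. -/
def Full (L : ℝ) (k : ℤ) : Prop := 0 ≤ (k : ℝ) ∧ (k : ℝ) + 1 ≤ L

/-- A piece near a point. -/
def Near (L : ℝ) (k : ℤ) (z : unitInterval) : Prop :=
  |L * z - k| ≤ 2 ∧ |L * z - (k + 1)| ≤ 2

theorem ivt (h : C(unitInterval, unitInterval)) (x y : unitInterval) :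
    uIcc (h x) (h y) ⊆ h '' uIcc x y :=
  intermediate_value_uIcc h.continuous.continuousOn

theorem grow (h1 : S_FOLD) (h2 : S_AVG) (c : ℝ) (F : C(unitInterval, unitInterval)) (t : ℝ)
    (hc : 16 ≤ c) (ht : 0 < t) (ht1 : t ≤ 1) (h : C(unitInterval, unitInterval))
    (hh : ∀ x, ((h x : unitInterval) : ℝ) = gR c F t x) (L : ℝ) (hL : L = c / t ^ 2) :
    ∀ (N : ℕ) (x y : unitInterval), x < y → 1 < 2 ^ N * ((y : ℝ) - x) →
      ∃ (n : ℕ) (k : ℤ), Full L k ∧ piece L k ⊆ (⇑h)^[n] '' Icc x y := by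
  have ht2 : 0 < t ^ 2 := by positivity
  have hLpos : 0 < L := by rw [hL]; positivity
  intro N
  induction N with
  | zero =>
    intro x y _ hN
    have := x.2.1
    have := y.2.2
    simp only [pow_zero, one_mul] at hN
    linarith
  | succ N ih =>
    intro x y hxy hN
    have hxy' : (x : ℝ) < y := hxy
    have hlt : L * x < L * y := mul_lt_mul_of_pos_left hxy' hLpos
    rcases half _ _ hlt with ⟨k, hk1, hk2⟩ | ⟨k, p, q, hp1, hpq, hq1, hkp, hqk, hlen⟩
    · refine ⟨0, k, ⟨?_, ?_⟩, ?_⟩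
      · exact le_trans (mul_nonneg hLpos.le x.2.1) hk1
      · refine hk2.trans ?_
        have := mul_le_mul_of_nonneg_left y.2.2 hLpos.le
        linarith
      · intro z hz
        simp only [Function.iterate_zero, image_id]
        constructor
        · have : L * x ≤ L * z := hk1.trans hz.1
          exact (mul_le_mul_iff_right₀ hLpos).mp this
        · have : L * z ≤ L * y := hz.2.trans hk2
          exact (mul_le_mul_iff_right₀ hLpos).mp this
    · have hp : p / L ∈ Icc (0:ℝ) 1 := by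
        constructor
        · exact div_nonneg ((mul_nonneg hLpos.le x.2.1).trans hp1) hLpos.le
        · rw [div_le_one hLpos]
          have := mul_le_mul_of_nonneg_left y.2.2 hLpos.le
          linarith
      have hq : q / L ∈ Icc (0:ℝ) 1 := by
        constructor
        · exact div_nonneg (((mul_nonneg hLpos.le x.2.1).trans hp1).trans hpq) hLpos.le
        · rw [div_le_one hLpos]
          have := mul_le_mul_of_nonneg_left y.2.2 hLpos.le
          linarith
      let x' : unitInterval := ⟨p / L, hp⟩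
      let y' : unitInterval := ⟨q / L, hq⟩
      have hx' : (x' : ℝ) = p / L := rfl
      have hy' : (y' : ℝ) = q / L := rfl
      have hLx : c * (x' : ℝ) / t ^ 2 = p := by
        rw [hx']
        have : c * (p / L) / t ^ 2 = (c / t ^ 2) * (p / L) := by ring
        rw [this, ← hL]; field_simp
      have hLy : c * (y' : ℝ) / t ^ 2 = q := by
        rw [hy']
        have : c * (q / L) / t ^ 2 = (c / t ^ 2) * (q / L) := by ring
        rw [this, ← hL]; field_simp
      have hxx' : x ≤ x' := by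
        show (x : ℝ) ≤ p / L
        rw [le_div_iff₀ hLpos]; linarith
      have hyy' : y' ≤ y := by
        show q / L ≤ (y : ℝ)
        rw [div_le_iff₀ hLpos]; linarith
      have hxy2 : x' ≤ y' := by
        show p / L ≤ q / L
        exact div_le_div_of_nonneg_right hpq hLpos.le
      have hst := steep h1 h2 c F t hc ht ht1 x' y' hxy2 k (by rw [hLx]; exact hkp)
        (by rw [hLy]; exact hqk)
      rw [← hh, ← hh] at hst
      have hlen2 : ((y : ℝ) - x) / 2 ≤ (y' : ℝ) - x' := by
        rw [hx', hy', ← sub_div, le_div_iff₀ hLpos]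
        linarith
      have hd : 2 * ((y : ℝ) - x) ≤ |((h y' : unitInterval) : ℝ) - h x'| := by linarith
      have hne : h x' ≠ h y' := by
        intro he
        rw [he, sub_self, abs_zero] at hd
        linarith
      have hinf : h x' ⊓ h y' < h x' ⊔ h y' := inf_lt_sup.mpr hne
      have hval : (((h x' ⊔ h y' : unitInterval) : ℝ) - ((h x' ⊓ h y' : unitInterval) : ℝ)) =
          |((h y' : unitInterval) : ℝ) - h x'| := by
        rcases le_total (h x') (h y') with hle | hle
        · rw [sup_eq_right.mpr hle, inf_eq_left.mpr hle, abs_of_nonneg]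
          have : ((h x' : unitInterval) : ℝ) ≤ h y' := hle
          linarith
        · rw [sup_eq_left.mpr hle, inf_eq_right.mpr hle, abs_of_nonpos]
          · ring
          · have : ((h y' : unitInterval) : ℝ) ≤ h x' := hle
            linarith
      obtain ⟨n, k', hF, hsub⟩ := ih (h x' ⊓ h y') (h x' ⊔ h y') hinf (by
        rw [hval]
        have h2N : (0:ℝ) < 2 ^ N := by positivity
        have := mul_le_mul_of_nonneg_left hd h2N.le
        rw [pow_succ] at hN
        linarith)
      refine ⟨n + 1, k', hF, hsub.trans ?_⟩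
      rw [Function.iterate_succ, image_comp]
      apply image_mono
      refine (ivt h x' y').trans (image_mono ?_)
      rw [uIcc_of_le hxy2]
      exact Icc_subset_Icc hxx' hyy'

theorem cover (h1 : S_FOLD) (h2 : S_AVG) (c : ℝ) (F : C(unitInterval, unitInterval)) (t : ℝ)
    (hc : 16 ≤ c) (ht : 0 < t) (ht1 : t ≤ 1) (h : C(unitInterval, unitInterval))
    (hh : ∀ x, ((h x : unitInterval) : ℝ) = gR c F t x) (L : ℝ) (hL : L = c / t ^ 2)
    (k : ℤ) (hk : Full L k) (z y : unitInterval) (hz : Near L k z)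
    (hy : |(y : ℝ) - F z| < 4 * t + 2 / L) : y ∈ h '' piece L k := by
  have ht2 : 0 < t ^ 2 := by positivity
  have hLpos : 0 < L := by rw [hL]; positivity
  have h2L : 2 / L ≤ t ^ 2 / 8 := by
    rw [hL]
    have : 2 / (c / t ^ 2) = 2 * t ^ 2 / c := by field_simp
    rw [this, div_le_iff₀ (by linarith : 0 < c)]
    nlinarith
  have h2Lt : 2 / L / t ≤ t / 8 := by
    rw [div_le_iff₀ ht]
    refine h2L.trans (le_of_eq ?_)
    ring
  have h2L' : 2 / L ≤ t / 8 := h2L.trans (by nlinarith)
  have key : ∀ x : unitInterval, |L * (x : ℝ) - L * z| ≤ 2 →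
      |avg F t x - F z| ≤ t / 8 + err F t := by
    intro x hx
    have e1 := h2.2.1 F t x z ht
    have e2 := h2.2.2.2.2.1 F t z
    have e3 : |(x : ℝ) - z| ≤ 2 / L := by
      rw [le_div_iff₀ hLpos]
      have : L * (x : ℝ) - L * z = ((x : ℝ) - z) * L := by ring
      rwa [this, abs_mul, abs_of_pos hLpos] at hx
    have e4 : |(x : ℝ) - z| / t ≤ 2 / L / t := div_le_div_of_nonneg_right e3 ht.le
    have e5 : avg F t x - F z = (avg F t x - avg F t z) + (avg F t z - F z) := by ring
    rw [e5]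
    exact (abs_add_le _ _).trans (by linarith)
  have hamp : amp F t = 5 * t + err F t := by unfold amp; rw [abs_of_pos ht]
  have y0 := y.2.1
  have y1 := y.2.2
  rw [abs_lt] at hy
  have hlow : ∀ x : unitInterval, |L * (x : ℝ) - L * z| ≤ 2 → saw c t x = 0 → h x ≤ y := by
    intro x hx hs
    show ((h x : unitInterval) : ℝ) ≤ y
    rw [hh]
    unfold gR lo
    rw [hs]
    have := key x hx
    rw [abs_le] at this
    have : max 0 (avg F t x - amp F t) ≤ (y : ℝ) := max_le y0 (by linarith)
    linarith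
  have hhigh : ∀ x : unitInterval, |L * (x : ℝ) - L * z| ≤ 2 → saw c t x = 1 → y ≤ h x := by
    intro x hx hs
    show (y : ℝ) ≤ ((h x : unitInterval) : ℝ)
    rw [hh]
    unfold gR hi
    rw [hs]
    have := key x hx
    rw [abs_le] at this
    have : (y : ℝ) ≤ min 1 (avg F t x + amp F t) := le_min y1 (by linarith)
    linarith
  have hx0 : (k : ℝ) / L ∈ Icc (0:ℝ) 1 :=
    ⟨div_nonneg hk.1 hLpos.le, by rw [div_le_one hLpos]; linarith [hk.2]⟩
  have hx1 : ((k : ℝ) + 1) / L ∈ Icc (0:ℝ) 1 :=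
    ⟨div_nonneg (by linarith [hk.1]) hLpos.le, by rw [div_le_one hLpos]; linarith [hk.2]⟩
  let x0 : unitInterval := ⟨(k : ℝ) / L, hx0⟩
  let x1 : unitInterval := ⟨((k : ℝ) + 1) / L, hx1⟩
  have hLx0 : L * (x0 : ℝ) = k := by show L * ((k : ℝ) / L) = k; field_simp
  have hLx1 : L * (x1 : ℝ) = k + 1 := by show L * (((k : ℝ) + 1) / L) = k + 1; field_simp
  have hn0 : |L * (x0 : ℝ) - L * z| ≤ 2 := by rw [hLx0, abs_sub_comm]; exact hz.1
  have hn1 : |L * (x1 : ℝ) - L * z| ≤ 2 := by rw [hLx1, abs_sub_comm]; exact hz.2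
  have hs0 : c * (x0 : ℝ) / t ^ 2 = k := by
    have : c * (x0 : ℝ) / t ^ 2 = (c / t ^ 2) * x0 := by ring
    rw [this, ← hL, hLx0]
  have hs1 : c * (x1 : ℝ) / t ^ 2 = k + 1 := by
    have : c * (x1 : ℝ) / t ^ 2 = (c / t ^ 2) * x1 := by ring
    rw [this, ← hL, hLx1]
  have h01 : x0 ≤ x1 := by
    show (k : ℝ) / L ≤ ((k : ℝ) + 1) / L
    exact div_le_div_of_nonneg_right (by linarith) hLpos.le
  have hin : y ∈ uIcc (h x0) (h x1) := by
    rcases Int.even_or_odd' k with ⟨m, hm | hm⟩
    · have e : (k : ℝ) = 2 * m := by rw [hm]; push_cast; ring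
      have a0 : saw c t x0 = 0 := by
        unfold saw
        rw [hs0, e, h1.2.2.1 m _ le_rfl (by linarith)]; ring
      have a1 : saw c t x1 = 1 := by
        unfold saw
        rw [hs1, e, h1.2.2.1 m _ (by linarith) le_rfl]; ring
      rw [mem_uIcc]
      exact Or.inl ⟨hlow _ hn0 a0, hhigh _ hn1 a1⟩
    · have e : (k : ℝ) = 2 * ((m + 1 : ℤ) : ℝ) - 1 := by rw [hm]; push_cast; ring
      have a0 : saw c t x0 = 1 := by
        unfold saw
        rw [hs0, e, h1.2.2.2 (m + 1) _ le_rfl (by linarith)]; ring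
      have a1 : saw c t x1 = 0 := by
        unfold saw
        rw [hs1, e, h1.2.2.2 (m + 1) _ (by linarith) (by linarith)]; ring
      rw [mem_uIcc]
      exact Or.inr ⟨hlow _ hn1 a1, hhigh _ hn0 a0⟩
  obtain ⟨w, hw, hwy⟩ := ivt h x0 x1 hin
  rw [uIcc_of_le h01] at hw
  refine ⟨w, ⟨?_, ?_⟩, hwy⟩
  · rw [← hLx0]; exact mul_le_mul_of_nonneg_left hw.1 hLpos.le
  · rw [← hLx1]; exact mul_le_mul_of_nonneg_left hw.2 hLpos.le

end Pool.Agent.W412.TI
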