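import Pool.Agent.W412.TI.Master2

set_option autoImplicit false

/-!
The modified maps are transitive, third part.
-/

namespace Pool.Agent.W412.TI

open Set

theorem next (L : ℝ) (hL : 16 ≤ L) (y : unitInterval) : ∃ k : ℤ, Full L k ∧ Near L k y := by
  have hL0 : 0 < L := by linarith
  have y0 := y.2.1
  have y1 := y.2.2
  obtain ⟨k, hk⟩ : ∃ k : ℤ, k = ⌊L * (y : ℝ)⌋ := ⟨_, rfl⟩
  have h1 : (k : ℝ) ≤ L * y := by rw [hk]; exact Int.floor_le _
  have h2 : L * y < k + 1 := by rw [hk]; exact Int.lt_floor_add_one _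
  have hk0 : (0 : ℤ) ≤ k := by rw [hk]; exact Int.floor_nonneg.mpr (by positivity)
  have hk0' : (0 : ℝ) ≤ k := by exact_mod_cast hk0
  have hLy : L * y ≤ L := by nlinarith
  by_cases h3 : (k : ℝ) + 1 ≤ L
  · refine ⟨k, ⟨hk0', h3⟩, ?_, ?_⟩ <;> rw [abs_le] <;> constructor <;> linarith
  · push Not at h3
    refine ⟨k - 1, ⟨?_, ?_⟩, ?_, ?_⟩
    · push_cast; linarith
    · push_cast; linarith
    · push_cast; rw [abs_le]; constructor <;> linarith
    · push_cast; rw [abs_le]; constructor <;> linarith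

theorem piece_near (L : ℝ) (hL : 0 < L) (k : ℤ) (y z : unitInterval) (hn : Near L k y)
    (hz : z ∈ piece L k) : |(z : ℝ) - y| ≤ 2 / L := by
  obtain ⟨a, b⟩ := hn
  obtain ⟨c, d⟩ := hz
  rw [abs_le] at a b
  have e : |(z : ℝ) - y| * L = |((z : ℝ) - y) * L| := by rw [abs_mul, abs_of_pos hL]
  rw [le_div_iff₀ hL, e, abs_le]
  constructor <;> nlinarith

theorem interval_in (U : Set unitInterval) (hU : IsOpen U) (hne : U.Nonempty) :
    ∃ x y : unitInterval, x < y ∧ Icc x y ⊆ U := by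
  obtain ⟨u, hu⟩ := hne
  obtain ⟨ε, hε, hball⟩ := Metric.isOpen_iff.mp hU u hu
  have u0 := u.2.1
  have u1 := u.2.2
  obtain ⟨δ, hδ⟩ : ∃ δ : ℝ, δ = min (ε / 2) (1 / 2) := ⟨_, rfl⟩
  have hδ0 : 0 < δ := by rw [hδ]; exact lt_min (by linarith) (by norm_num)
  have hδ1 : δ ≤ 1 / 2 := by rw [hδ]; exact min_le_right _ _
  have hδ2 : δ ≤ ε / 2 := by rw [hδ]; exact min_le_left _ _
  by_cases hu2 : (u : ℝ) ≤ 1 / 2
  · refine ⟨u, ⟨u + δ, ⟨by linarith, by linarith⟩⟩, ?_, ?_⟩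
    · show (u : ℝ) < u + δ
      linarith
    · intro z hz
      apply hball
      have a : (u : ℝ) ≤ z := hz.1
      have b : (z : ℝ) ≤ u + δ := hz.2
      rw [Metric.mem_ball, Subtype.dist_eq, Real.dist_eq, abs_lt]
      constructor <;> linarith
  · push Not at hu2
    refine ⟨⟨u - δ, ⟨by linarith, by linarith⟩⟩, u, ?_, ?_⟩
    · show (u : ℝ) - δ < u
      linarith
    · intro z hz
      apply hball
      have a : (u : ℝ) - δ ≤ z := hz.1
      have b : (z : ℝ) ≤ u := hz.2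
      rw [Metric.mem_ball, Subtype.dist_eq, Real.dist_eq, abs_lt]
      constructor <;> linarith

theorem master (h1 : S_FOLD) (h2 : S_AVG) : S_MASTER := by
  intro c F t hc ht ht1 hch h hh U V hU hV hUne hVne
  obtain ⟨L, hL⟩ : ∃ L : ℝ, L = c / t ^ 2 := ⟨_, rfl⟩
  have ht2 : 0 < t ^ 2 := by positivity
  have hL16 : 16 ≤ L := by
    rw [hL, le_div_iff₀ ht2]
    nlinarith
  have hL0 : 0 < L := by linarith
  have step : ∀ (S : Set unitInterval) (k : ℤ) (z y : unitInterval), piece L k ⊆ S → Full L k →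
      Near L k z → Step F (4 * t) z y →
      y ∈ h '' S ∧ ∃ k', Full L k' ∧ Near L k' y ∧ piece L k' ⊆ h '' S := by
    intro S k z y hS hk hz hy
    unfold Step at hy
    have hpos : 0 < 2 / L := by positivity
    refine ⟨image_mono hS (cover h1 h2 c F t hc ht ht1 h hh L hL k hk z y hz (by linarith)), ?_⟩
    obtain ⟨k', hF, hN⟩ := next L hL16 y
    refine ⟨k', hF, hN, ?_⟩
    intro y' hy'
    refine image_mono hS (cover h1 h2 c F t hc ht ht1 h hh L hL k hk z y' hz ?_)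
    have hd := piece_near L hL0 k' y y' hN hy'
    have e : (y' : ℝ) - F z = (y' - y) + (y - F z) := by ring
    rw [e]
    exact (abs_add_le _ _).trans_lt (by linarith)
  obtain ⟨x, y, hxy, hsub⟩ := interval_in U hU hUne
  have hxy' : 0 < (y : ℝ) - x := sub_pos.mpr hxy
  obtain ⟨N, hN⟩ := pow_unbounded_of_one_lt (1 / ((y : ℝ) - x)) (one_lt_two : (1:ℝ) < 2)
  obtain ⟨n0, k0, hk0, hp0⟩ := grow h1 h2 c F t hc ht ht1 h hh L hL N x y hxy (by
    rwa [div_lt_iff₀ hxy'] at hN)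
  have hp0' : piece L k0 ⊆ (⇑h)^[n0] '' U := hp0.trans (image_mono hsub)
  have hz0 : (k0 : ℝ) / L ∈ Icc (0:ℝ) 1 :=
    ⟨div_nonneg hk0.1 hL0.le, by rw [div_le_one hL0]; linarith [hk0.2]⟩
  let z0 : unitInterval := ⟨(k0 : ℝ) / L, hz0⟩
  have hLz0 : L * (z0 : ℝ) = k0 := by show L * ((k0 : ℝ) / L) = k0; field_simp
  have hn0 : Near L k0 z0 := by
    constructor
    · rw [hLz0]; simp
    · rw [hLz0]; simp
  have hall : ∀ y, Relation.TransGen (Step F (4 * t)) z0 y →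
      ∃ n, 0 < n ∧ y ∈ (⇑h)^[n] '' U ∧ ∃ k', Full L k' ∧ Near L k' y ∧
        piece L k' ⊆ (⇑h)^[n] '' U := by
    intro y hy
    induction hy with
    | single hs =>
      obtain ⟨a, b⟩ := step _ k0 z0 _ hp0' hk0 hn0 hs
      refine ⟨n0 + 1, Nat.succ_pos _, ?_⟩
      rw [Function.iterate_succ', image_comp]
      exact ⟨a, b⟩
    | tail _ hs ih =>
      obtain ⟨n, _, _, k', hF, hN', hp⟩ := ih
      obtain ⟨a, b⟩ := step _ k' _ _ hp hF hN' hs
      refine ⟨n + 1, Nat.succ_pos _, ?_⟩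
      rw [Function.iterate_succ', image_comp]
      exact ⟨a, b⟩
  obtain ⟨v, hv⟩ := hVne
  obtain ⟨n, hn, hmem, _⟩ := hall v (hch z0 v)
  exact ⟨n, hn, v, hmem, hv⟩

end Pool.Agent.W412.TI
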