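import Pool.Agent.W412.TI.Defs

set_option autoImplicit false

/-!
Spaces of transitive interval maps: the steps.
-/

namespace Pool.Agent.W412.TI

open Set

/-- FOLD -/
def S_FOLD : Prop := (∀ v, 0 ≤ fold v) ∧ (∀ v, fold v ≤ 1) ∧
  (∀ (m : ℤ) (v : ℝ), 2 * (m : ℝ) ≤ v → v ≤ 2 * m + 1 → fold v = v - 2 * m) ∧
  (∀ (m : ℤ) (v : ℝ), 2 * (m : ℝ) - 1 ≤ v → v ≤ 2 * m → fold v = 2 * m - v)

/-- AVG -/
def S_AVG : Prop := (∀ (F : C(unitInterval, unitInterval)) (t x : ℝ),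
    0 ≤ avg F t x ∧ avg F t x ≤ 1) ∧
  (∀ (F : C(unitInterval, unitInterval)) (t x y : ℝ), 0 < t →
    |avg F t x - avg F t y| ≤ |x - y| / t) ∧
  (∀ (F : C(unitInterval, unitInterval)) (x : unitInterval), avg F 0 x = F x) ∧
  (Continuous fun q : C(unitInterval, unitInterval) × ℝ => err q.1 q.2) ∧
  (∀ (F : C(unitInterval, unitInterval)) (t : ℝ) (x : unitInterval),
    |avg F t x - F x| ≤ err F t) ∧
  ∀ F : C(unitInterval, unitInterval), err F 0 = 0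

/-- CT -/
def S_CT : Prop := closure T ⊆ CT

/-- A family of modified maps. -/
def IsG (g : ℝ → C(unitInterval, unitInterval) × ℝ → C(unitInterval, unitInterval)) : Prop :=
  (∀ c q x, ((g c q x : unitInterval) : ℝ) = gR c q.1 q.2 x) ∧ (∀ c, Continuous (g c)) ∧
  (∀ c F, g c (F, 0) = F) ∧ ∀ c F t, dist (g c (F, t)) F ≤ 2 * amp F t

/-- G (from FOLD, AVG) -/
def S_G : Prop := ∃ g, IsG g

/-- MASTER (from FOLD, AVG) -/
def S_MASTER : Prop := ∀ (c : ℝ) (F : C(unitInterval, unitInterval)) (t : ℝ), 16 ≤ c → 0 < t →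
  t ≤ 1 → (∀ x y, Relation.TransGen (Step F (4 * t)) x y) →
  ∀ h : C(unitInterval, unitInterval), (∀ x, ((h x : unitInterval) : ℝ) = gR c F t x) → h ∈ T

/-- LF (from FOLD, AVG) -/
def S_LF : Prop := ∀ g, IsG g → ∀ ε : C(unitInterval, unitInterval) → ℝ, Continuous ε →
  (∀ f, 0 < ε f) → ∃ τ : C(unitInterval, unitInterval) → ℝ, Continuous τ ∧
    (∀ f, 0 < τ f ∧ τ f ≤ 1) ∧ (∀ f, 2 * amp f (τ f) < ε f) ∧
    LocallyFinite fun n : ℕ => range fun f => g (16 + n) (f, τ f)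

end Pool.Agent.W412.TI
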